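import Pool.Agent.W984.PH.Stm

/-!
Project PH (helper984), part LC: log-concavity of elementary symmetric functions.
-/

set_option autoImplicit false

open Finset

namespace Pool.Agent.W249.PH

open Pool.Agent.W984.PH

theorem lc : S_LC := by
  intro V _ x U
  induction U using Finset.induction_on with
  | empty =>
    intro hx a b _
    rw [es_empty_succ x (a + 1), zero_mul]
    exact mul_nonneg (es_nonneg x _ hx _) (es_nonneg x _ hx _)
  | insert v U hv ih =>
    intro hx a b hab
    have hx' : ∀ w ∈ U, 0 ≤ x w := fun w hw => hx w (Finset.mem_insert_of_mem hw)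
    have ih' := ih hx'
    have hy : 0 ≤ x v := hx v (Finset.mem_insert_self v U)
    have hn := es_nonneg x U hx'
    rcases b with _ | b
    · have e1 : es x (insert v U) (a + 2) = es x U (a + 2) + x v * es x U (a + 1) :=
        es_insert x U v hv (a + 1)
      have e2 : es x (insert v U) (a + 1) = es x U (a + 1) + x v * es x U a :=
        es_insert x U v hv a
      have e3 : es x (insert v U) (0 + 1) = es x U (0 + 1) + x v * es x U 0 :=
        es_insert x U v hv 0
      rw [es_zero, e1, e2, e3, es_zero]
      have h := ih' a 0 (Nat.zero_le _)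
      rw [es_zero] at h
      have h1 : 0 ≤ x v * es x U a * es x U (0 + 1) :=
        mul_nonneg (mul_nonneg hy (hn a)) (hn _)
      have h2 : 0 ≤ x v * es x U a * x v := mul_nonneg (mul_nonneg hy (hn a)) hy
      nlinarith
    · obtain ⟨a', rfl⟩ : ∃ a', a = a' + 1 := ⟨a - 1, by omega⟩
      have e1 : es x (insert v U) (a' + 1 + 2) = es x U (a' + 3) + x v * es x U (a' + 2) :=
        es_insert x U v hv (a' + 2)
      have e2 : es x (insert v U) (b + 1) = es x U (b + 1) + x v * es x U b :=
        es_insert x U v hv b
      have e3 : es x (insert v U) (a' + 1 + 1) = es x U (a' + 2) + x v * es x U (a' + 1) :=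
        es_insert x U v hv (a' + 1)
      have e4 : es x (insert v U) (b + 1 + 1) = es x U (b + 2) + x v * es x U (b + 1) :=
        es_insert x U v hv (b + 1)
      rw [e1, e2, e3, e4]
      have h1 : es x U (a' + 3) * es x U (b + 1) ≤ es x U (a' + 2) * es x U (b + 2) :=
        ih' (a' + 1) (b + 1) hab
      have h3 : es x U (a' + 2) * es x U b ≤ es x U (a' + 1) * es x U (b + 1) :=
        ih' a' b (by omega)
      have h4 : es x U (a' + 3) * es x U b ≤ es x U (a' + 2) * es x U (b + 1) :=
        ih' (a' + 1) b (by omega)
      have h2 : es x U (a' + 3) * es x U b ≤ es x U (a' + 1) * es x U (b + 2) := by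
        rcases Nat.eq_or_lt_of_le (show b ≤ a' by omega) with h5 | h5
        · subst h5
          linarith [mul_comm (es x U (b + 2)) (es x U (b + 1))]
        · exact h4.trans (ih' a' (b + 1) h5)
      have k2 := mul_le_mul_of_nonneg_left h2 hy
      have k3 := mul_le_mul_of_nonneg_left h3 (mul_nonneg hy hy)
      nlinarith

end Pool.Agent.W249.PH

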